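import Mathlib
import Pool.Agent.H48.PropertyA

/-!
An operator on a complex Banach space which has property `A` but is not U-frequently recurrent:
a bilateral weighted backward shift on `c₀(ℤ)`.
-/

set_option autoImplicit false

open Filter
open scoped ZeroAtInfty

namespace Pool.Agent.Results.MP_b9874d_an.PropertyAWithoutUFreqRecurrence

/-- Upper density of a set of natural numbers. -/
noncomputable def upperDensity (A : Set ℕ) : ℝ :=
  limsup (fun N : ℕ => ((A ∩ Set.Icc 1 N).ncard : ℝ) / N) atTop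

/-- Property A of an operator. -/
def HasPropertyA {X : Type*} [NormedAddCommGroup X] [NormedSpace ℂ X] (T : X →L[ℂ] X) : Prop :=
  ∀ U : Set X, IsOpen U → U.Nonempty → ∃ x : X, 0 < upperDensity {n : ℕ | (T ^ n) x ∈ U}

/-- `x` is a U-frequently recurrent vector of `T`. -/
def IsUFreqRecurrentVector {X : Type*} [NormedAddCommGroup X] [NormedSpace ℂ X] (T : X →L[ℂ] X)
    (x : X) : Prop :=
  ∀ V : Set X, IsOpen V → x ∈ V → 0 < upperDensity {n : ℕ | (T ^ n) x ∈ V}

/-- `T` is U-frequently recurrent. -/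
def IsUFreqRecurrent {X : Type*} [NormedAddCommGroup X] [NormedSpace ℂ X] (T : X →L[ℂ] X) :
    Prop :=
  Dense {x : X | IsUFreqRecurrentVector T x}

theorem ncard_le (A : Set ℕ) (N : ℕ) : (A ∩ Set.Icc 1 N).ncard ≤ N := by
  have h1 : (A ∩ Set.Icc 1 N).ncard ≤ (Set.Icc 1 N).ncard :=
    Set.ncard_le_ncard Set.inter_subset_right (Set.finite_Icc 1 N)
  have h2 : (Set.Icc 1 N).ncard = N := by
    rw [← Finset.coe_Icc, Set.ncard_coe_finset]; simp
  omega

theorem ratio_le (A : Set ℕ) (N : ℕ) : ((A ∩ Set.Icc 1 N).ncard : ℝ) / N ≤ 1 := by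
  have h1 : ((A ∩ Set.Icc 1 N).ncard : ℝ) ≤ N := by exact_mod_cast ncard_le A N
  exact div_le_one_of_le₀ h1 (by positivity)

theorem upperDensity_pos {A : Set ℕ} {q : ℕ} (hq : 0 < q) (h : ∀ m : ℕ, 1 ≤ m → q * m ∈ A) :
    0 < upperDensity A := by
  have hq' : (0 : ℝ) < q := by exact_mod_cast hq
  have h1 : (1 : ℝ) / q ≤ upperDensity A := by
    apply le_limsup_of_frequently_le
    · rw [frequently_atTop]
      intro a
      refine ⟨q * (a + 1), ?_, ?_⟩
      · nlinarith
      · have h2 : a + 1 ≤ (A ∩ Set.Icc 1 (q * (a + 1))).ncard := by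
          have h3 : ((fun m => q * m) '' (Set.Icc 1 (a + 1))) ⊆ A ∩ Set.Icc 1 (q * (a + 1)) := by
            rintro x ⟨m, hm, rfl⟩
            refine ⟨h m hm.1, ?_, ?_⟩
            · have := hm.1
              show 1 ≤ q * m
              exact Nat.mul_pos hq this
            · exact Nat.mul_le_mul_left q hm.2
          have h4 := Set.ncard_le_ncard h3 ((Set.finite_Icc 1 (q * (a + 1))).subset
            Set.inter_subset_right)
          rw [Set.ncard_image_of_injective _ (fun a b hab => Nat.eq_of_mul_eq_mul_left hq hab)] at h4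
          rw [← Finset.coe_Icc, Set.ncard_coe_finset] at h4
          simpa using h4
        have h3 : ((a + 1 : ℕ) : ℝ) ≤ ((A ∩ Set.Icc 1 (q * (a + 1))).ncard : ℝ) := by
          exact_mod_cast h2
        rw [div_le_div_iff₀ hq' (by positivity)]
        push_cast at h3 ⊢
        nlinarith
    · exact isBoundedUnder_of ⟨1, ratio_le A⟩
  have : (0 : ℝ) < 1 / q := by positivity
  linarith

open Finset in
open Classical in
theorem exists_of_pos {A : Set ℕ} (h : 0 < upperDensity A) :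
    ∃ δ : ℝ, 0 < δ ∧ ∃ᶠ N : ℕ in atTop, δ * N ≤ (#{n ∈ Ico 1 (N + 1) | n ∈ A} : ℕ) := by
  refine ⟨upperDensity A / 2, by linarith, ?_⟩
  have h1 : ∃ᶠ N : ℕ in atTop, upperDensity A / 2 < ((A ∩ Set.Icc 1 N).ncard : ℝ) / N :=
    frequently_lt_of_lt_limsup
      (isBoundedUnder_of ⟨0, fun N => div_nonneg (Nat.cast_nonneg _) (Nat.cast_nonneg _)⟩ :
        IsBoundedUnder (· ≥ ·) atTop _).isCoboundedUnder_le (by
      show upperDensity A / 2 < upperDensity A
      linarith)
  refine (h1.and_eventually (eventually_gt_atTop 0)).mono ?_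
  rintro N ⟨hN, hN0⟩
  have hN' : (0 : ℝ) < N := by exact_mod_cast hN0
  rw [lt_div_iff₀ hN'] at hN
  refine hN.le.trans (le_of_eq ?_)
  have e : A ∩ Set.Icc 1 N = ((({n ∈ Ico 1 (N + 1) | n ∈ A} : Finset ℕ)) : Set ℕ) := by
    ext n
    simp only [Set.mem_inter_iff, Set.mem_Icc, coe_filter, mem_Ico, Set.mem_ofPred_eq]
    constructor
    · rintro ⟨h1, h2, h3⟩; exact ⟨⟨h2, by omega⟩, h1⟩
    · rintro ⟨⟨h2, h3⟩, h1⟩; exact ⟨h1, h2, by omega⟩
  rw [e, Set.ncard_coe_finset]

/-- There is a bilateral weighted backward shift `T` on `c₀(ℤ)`, with weights between `1/2` and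
`2`, which has property `A`, has no U-frequently recurrent vector besides `0`, and hence is not
U-frequently recurrent. -/
theorem result : ∃ w : ℤ → ℝ, (∀ i, 1 / 2 ≤ w i ∧ w i ≤ 2) ∧
    ∃ T : C₀(ℤ, ℂ) →L[ℂ] C₀(ℤ, ℂ), (∀ f i, T f i = w i * f (i + 1)) ∧
      HasPropertyA T ∧ (∀ x, IsUFreqRecurrentVector T x → x = 0) ∧ ¬ IsUFreqRecurrent T := by
  obtain ⟨w, hw, T, hT, hA, hR⟩ := Pool.Agent.H48.PropertyA.main
  have hzero : ∀ x, IsUFreqRecurrentVector T x → x = 0 := by
    intro x hx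
    by_contra hne
    obtain ⟨c, hc, h1⟩ := hR x hne
    obtain ⟨δ, hδ, h2⟩ := exists_of_pos (hx (Metric.ball x c) Metric.isOpen_ball
      (Metric.mem_ball_self hc))
    obtain ⟨r, hr, h3⟩ := h1 δ hδ h2
    obtain ⟨β, hβ, h4⟩ := exists_of_pos (hx (Metric.ball x r) Metric.isOpen_ball
      (Metric.mem_ball_self hr))
    exact h3 β hβ h4
  refine ⟨w, hw, T, hT, ?_, hzero, ?_⟩
  · intro U hU hne
    obtain ⟨x, q, hq, h⟩ := hA U hU hne
    exact ⟨x, upperDensity_pos hq h⟩
  · intro hd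
    have hsub : {x | IsUFreqRecurrentVector T x} ⊆ {0} := hzero
    have hcl : closure {x | IsUFreqRecurrentVector T x} ⊆ {0} :=
      closure_minimal hsub isClosed_singleton
    obtain ⟨f, hf⟩ := Pool.Agent.H48.PropertyA.exists_ne_zero
    exact hf (hcl (hd f))

end Pool.Agent.Results.MP_b9874d_an.PropertyAWithoutUFreqRecurrence
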